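import Pool.Agent.J4H84.TH.Jobs

set_option autoImplicit false

/-! TH: JORDAN. A Jordan block summand of an endomorphism. -/

namespace Pool.Agent.J4H98.TH

open Pool.Agent.J4H84.TH

universe u

theorem jord_split {k : Type u} [Field k] (r : ℕ) (c : k) (i j : Fin r) :
    jord r c i j = (if i = j then c else 0) + (if (i : ℕ) = j + 1 then 1 else 0) := by
  unfold jord
  by_cases h1 : i = j
  · subst h1
    simp
  · simp [h1]

theorem t_JORDAN : S_JORDAN := by
  intro k Q _ _ _ _ _ _ A
  classical
  obtain ⟨μ, hμ⟩ := Module.End.exists_eigenvalue A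
  obtain ⟨v0, hv0⟩ := hμ.exists_hasEigenvector
  obtain ⟨N, hN⟩ : ∃ N : Module.End k Q, N = A - algebraMap k (Module.End k Q) μ := ⟨_, rfl⟩
  have hA : ∀ q, A q = μ • q + N q := by
    intro q
    rw [hN]
    simp [Module.algebraMap_end_apply]
  have hk0 : LinearMap.ker (N ^ 0) ≠ LinearMap.ker (N ^ 1) := by
    intro h
    have h1 : v0 ∈ LinearMap.ker (N ^ 1) := by
      rw [LinearMap.mem_ker, pow_one]
      have := hA v0
      rw [hv0.apply_eq_smul] at this
      simpa using this
    rw [← h, LinearMap.mem_ker, pow_zero, Module.End.one_apply] at h1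
    exact hv0.2 h1
  -- the kernels stabilize
  have hex : ∃ s, LinearMap.ker (N ^ s) = LinearMap.ker (N ^ (s + 1)) := by
    obtain ⟨n, -, hn⟩ := Module.End.exists_ker_pow_eq_ker_pow_succ N
    exact ⟨n, hn⟩
  obtain ⟨r, hr⟩ : ∃ r, Nat.find hex = r + 1 := by
    have : Nat.find hex ≠ 0 := by
      intro h
      have h1 := Nat.find_spec hex
      rw [h] at h1
      exact hk0 h1
    exact ⟨Nat.find hex - 1, by omega⟩
  have hst : LinearMap.ker (N ^ (r + 1)) = LinearMap.ker (N ^ (r + 2)) := by
    have := Nat.find_spec hex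
    rwa [hr] at this
  have hst2 : LinearMap.ker (N ^ r) ≠ LinearMap.ker (N ^ (r + 1)) := Nat.find_min hex (by omega)
  have hmono : LinearMap.ker (N ^ r) ≤ LinearMap.ker (N ^ (r + 1)) := by
    intro x hx
    rw [LinearMap.mem_ker] at hx ⊢
    rw [pow_succ', Module.End.mul_apply, hx, map_zero]
  obtain ⟨v, hv1, hv2⟩ := SetLike.exists_of_lt (lt_of_le_of_ne hmono hst2)
  rw [LinearMap.mem_ker] at hv1 hv2
  have hnot : (N ^ r) v ∉ LinearMap.range (N ^ (r + 1)) := by
    rintro ⟨w, hw⟩
    have h1 : w ∈ LinearMap.ker (N ^ (r + 2)) := by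
      rw [LinearMap.mem_ker, pow_succ', Module.End.mul_apply, hw]
      have := hv1
      rw [pow_succ', Module.End.mul_apply] at this
      exact this
    rw [← hst, LinearMap.mem_ker, hw] at h1
    exact hv2 h1
  obtain ⟨φ, hφ1, hφ2⟩ := Submodule.exists_dual_map_eq_bot_of_notMem hnot inferInstance
  have hφ : ∀ q, φ ((N ^ (r + 1)) q) = 0 := by
    intro q
    have : φ ((N ^ (r + 1)) q) ∈ (LinearMap.range (N ^ (r + 1))).map φ := ⟨_, ⟨q, rfl⟩, rfl⟩
    rw [hφ2] at this
    exact this
  have hφ' : ∀ s q, r + 1 ≤ s → φ ((N ^ s) q) = 0 := by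
    intro s q hs
    obtain ⟨d, rfl⟩ := Nat.exists_eq_add_of_le hs
    rw [pow_add, Module.End.mul_apply]
    exact hφ _
  have hvz : ∀ s, r + 1 ≤ s → (N ^ s) v = 0 := by
    intro s hs
    obtain ⟨d, rfl⟩ := Nat.exists_eq_add_of_le hs
    rw [add_comm, pow_add, Module.End.mul_apply, hv1, map_zero]
  refine ⟨r, μ, Fintype.linearCombination k (fun i : Fin (r + 1) => (N ^ (i : ℕ)) v),
    LinearMap.pi (fun i : Fin (r + 1) => φ ∘ₗ (N ^ (r - (i : ℕ)))), ?_, ?_, ?_⟩
  · intro w
    rw [Fintype.linearCombination_apply, Fintype.linearCombination_apply, map_sum]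
    simp only [Matrix.mulVec, dotProduct, Finset.sum_smul]
    rw [Finset.sum_comm]
    apply Finset.sum_congr rfl
    intro j _
    have h1 : ∀ i : Fin (r + 1), (jord (r + 1) μ i j * w j) • (N ^ (i : ℕ)) v =
        (if i = j then (w j * μ) • (N ^ (i : ℕ)) v else 0) +
        (if (i : ℕ) = j + 1 then w j • (N ^ (i : ℕ)) v else 0) := by
      intro i
      rw [jord_split]
      by_cases h2 : i = j
      · subst h2
        simp [mul_comm]
      · by_cases h3 : (i : ℕ) = j + 1
        · simp [h2, h3]
        · simp [h2, h3]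
    rw [Finset.sum_congr rfl (fun i _ => h1 i), Finset.sum_add_distrib]
    rw [Finset.sum_ite_eq' Finset.univ j]
    simp only [Finset.mem_univ, if_true]
    have h4 : ∑ i : Fin (r + 1), (if (i : ℕ) = j + 1 then w j • (N ^ (i : ℕ)) v else 0) =
        w j • (N ^ ((j : ℕ) + 1)) v := by
      by_cases h5 : (j : ℕ) + 1 < r + 1
      · rw [Finset.sum_eq_single (⟨(j : ℕ) + 1, h5⟩ : Fin (r + 1))]
        · simp
        · intro b _ hb
          rw [if_neg]
          intro h6
          exact hb (Fin.ext h6)
        · intro h6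
          exact absurd (Finset.mem_univ _) h6
      · rw [hvz _ (by omega), smul_zero]
        apply Finset.sum_eq_zero
        intro b _
        rw [if_neg]
        intro h6
        have := b.2
        omega
    rw [h4, map_smul, hA, smul_add, smul_smul, pow_succ', Module.End.mul_apply]
  · intro q
    funext i
    simp only [LinearMap.pi_apply, LinearMap.comp_apply, Matrix.mulVec, dotProduct]
    have h1 : ∀ j : Fin (r + 1), jord (r + 1) μ i j * φ ((N ^ (r - (j : ℕ))) q) =
        (if i = j then μ * φ ((N ^ (r - (j : ℕ))) q) else 0) +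
        (if (i : ℕ) = j + 1 then φ ((N ^ (r - (j : ℕ))) q) else 0) := by
      intro j
      rw [jord_split]
      by_cases h2 : i = j
      · subst h2
        simp
      · by_cases h3 : (i : ℕ) = j + 1
        · simp [h2, h3]
        · simp [h2, h3]
    rw [Finset.sum_congr rfl (fun j _ => h1 j), Finset.sum_add_distrib, Finset.sum_ite_eq Finset.univ i]
    simp only [Finset.mem_univ, if_true]
    rw [hA, map_add, map_add, map_smul, map_smul, smul_eq_mul]
    congr 1
    have hi := i.2
    by_cases h5 : (i : ℕ) = 0
    · rw [Finset.sum_eq_zero]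
      · rw [h5, Nat.sub_zero, ← Module.End.mul_apply, ← pow_succ]
        exact hφ q
      · intro b _
        rw [if_neg]
        omega
    · rw [Finset.sum_eq_single (⟨(i : ℕ) - 1, by omega⟩ : Fin (r + 1))]
      · rw [if_pos (by simp only; omega)]
        rw [← Module.End.mul_apply, ← pow_succ]
        congr 3
        simp only
        omega
      · intro b _ hb
        rw [if_neg]
        intro h6
        apply hb
        apply Fin.ext
        simp only
        omega
      · intro h6
        exact absurd (Finset.mem_univ _) h6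
  · have hcomp : ∀ (w : Fin (r + 1) → k) (i : Fin (r + 1)),
        (LinearMap.pi (fun i : Fin (r + 1) => φ ∘ₗ (N ^ (r - (i : ℕ)))))
          (Fintype.linearCombination k (fun i : Fin (r + 1) => (N ^ (i : ℕ)) v) w) i =
        ∑ j : Fin (r + 1), w j * φ ((N ^ (r - (i : ℕ) + (j : ℕ))) v) := by
      intro w i
      simp only [LinearMap.pi_apply, LinearMap.comp_apply, Fintype.linearCombination_apply, map_sum, map_smul,
        smul_eq_mul]
      apply Finset.sum_congr rfl
      intro j _
      rw [pow_add, Module.End.mul_apply]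
    have hker : ∀ w : Fin (r + 1) → k,
        (LinearMap.pi (fun i : Fin (r + 1) => φ ∘ₗ (N ^ (r - (i : ℕ)))))
          (Fintype.linearCombination k (fun i : Fin (r + 1) => (N ^ (i : ℕ)) v) w) = 0 → w = 0 := by
      intro w hw
      have h1 : ∀ n : ℕ, ∀ i : Fin (r + 1), (i : ℕ) = n → w i = 0 := by
        intro n
        induction n using Nat.strong_induction_on with
        | _ n ih =>
          intro i hi
          have h2 := hcomp w i
          rw [hw] at h2
          simp only [Pi.zero_apply] at h2
          rw [Finset.sum_eq_single i] at h2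
          · have h3 : r - (i : ℕ) + (i : ℕ) = r := by have := i.2; omega
            rw [h3] at h2
            rcases mul_eq_zero.mp h2.symm with h4 | h4
            · exact h4
            · exact absurd h4 hφ1
          · intro j _ hj
            rcases lt_or_gt_of_ne (fun h : (j : ℕ) = i => hj (Fin.ext h)) with h4 | h4
            · rw [ih j (by omega) j rfl, zero_mul]
            · rw [hφ' _ _ (by have := i.2; omega), mul_zero]
          · intro h6
            exact absurd (Finset.mem_univ _) h6
      funext i
      exact h1 i i rfl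
    intro w w' hww
    have h1 := hker (w - w') (by
      rw [map_sub, map_sub]
      exact sub_eq_zero.mpr hww)
    exact sub_eq_zero.mp h1

end Pool.Agent.J4H98.TH
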