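import Pool.Agent.J4H84.TH.Jobs

set_option autoImplicit false

/-! TH: WORD. The filtration by words. -/

namespace Pool.Agent.J4H98.TH

open Pool.Agent.J4H84.TH

universe u

variable {k V : Type u} [Field k] [AddCommGroup V] [Module k V] (M : GMod k V)

theorem mem_G {i : ZMod 4} {v : V} : v ∈ M.G i ↔ M.π i v = v := by
  constructor
  · rintro ⟨w, rfl⟩
    exact M.idem i w
  · intro h
    exact ⟨v, h⟩

theorem aG {i : ZMod 4} {v : V} (h : v ∈ M.G i) : M.a v ∈ M.G (i + 1) := by
  rw [mem_G] at h ⊢
  rw [← M.aπ, h]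

theorem bG {i : ZMod 4} {v : V} (h : v ∈ M.G (i + 1)) : M.b v ∈ M.G i := by
  rw [mem_G] at h ⊢
  rw [← M.bπ, h]

theorem R_mono (C : List Bool) (i : ZMod 4) {W W' : Submodule k V} (h : W ≤ W') :
    M.R C i W ≤ M.R C i W' := by
  induction C generalizing i with
  | nil => exact h
  | cons c C ih =>
    cases c
    · exact Submodule.map_mono (ih (i + 1))
    · exact inf_le_inf_right _ (Submodule.comap_mono (ih (i + 1)))

theorem R_append (C D : List Bool) (i : ZMod 4) (W : Submodule k V) :
    M.R (C ++ D) i W = M.R C i (M.R D (i + C.length) W) := by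
  induction C generalizing i with
  | nil => simp [GMod.R]
  | cons c C ih =>
    have e : i + 1 + (C.length : ZMod 4) = i + ((c :: C).length : ℕ) := by
      rw [List.length_cons]
      push_cast
      ring
    rw [← e]
    cases c
    · change (M.R (C ++ D) (i + 1) W).map M.b = (M.R C (i + 1) _).map M.b
      rw [ih]
    · change (M.R (C ++ D) (i + 1) W).comap M.a ⊓ M.G i = (M.R C (i + 1) _).comap M.a ⊓ M.G i
      rw [ih]

theorem R_le (C : List Bool) (i : ZMod 4) {W : Submodule k V} (h : W ≤ M.G (i + C.length)) :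
    M.R C i W ≤ M.G i := by
  induction C generalizing i with
  | nil => simpa [GMod.R] using h
  | cons c C ih =>
    have e : i + 1 + (C.length : ZMod 4) = i + ((c :: C).length : ℕ) := by
      rw [List.length_cons]
      push_cast
      ring
    cases c
    · change (M.R C (i + 1) W).map M.b ≤ M.G i
      rintro _ ⟨w, hw, rfl⟩
      exact bG M (ih (i + 1) (by rw [e]; exact h) hw)
    · exact inf_le_right

/-- the lower and upper ends of the interval of a word -/
def lo (C : List Bool) (i : ZMod 4) : Submodule k V := M.R C i ⊥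
def hi (C : List Bool) (i : ZMod 4) : Submodule k V := M.R C i (M.G (i + C.length))

theorem lo_false (C : List Bool) (i : ZMod 4) : lo M (C ++ [false]) i = lo M C i := by
  unfold lo
  rw [R_append]
  simp [GMod.R]

theorem hi_false (C : List Bool) (i : ZMod 4) :
    hi M (C ++ [false]) i = M.R C i ((M.G (i + C.length + 1)).map M.b) := by
  unfold hi
  rw [R_append, List.length_append]
  have e : i + ((C.length + [false].length : ℕ) : ZMod 4) = i + C.length + 1 := by
    simp [add_assoc]
  rw [e]
  rfl

theorem lo_true (C : List Bool) (i : ZMod 4) :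
    lo M (C ++ [true]) i = M.R C i (LinearMap.ker M.a ⊓ M.G (i + C.length)) := by
  unfold lo
  rw [R_append]
  rfl

theorem hi_true (C : List Bool) (i : ZMod 4) : hi M (C ++ [true]) i = hi M C i := by
  unfold hi
  rw [R_append, List.length_append]
  have e : i + ((C.length + [true].length : ℕ) : ZMod 4) = i + C.length + 1 := by
    simp [add_assoc]
  rw [e]
  congr 1
  change (M.G (i + C.length + 1)).comap M.a ⊓ M.G (i + C.length) = _
  apply inf_eq_right.mpr
  intro v hv
  exact aG M hv

theorem mid (C : List Bool) (i : ZMod 4) :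
    M.R C i ((M.G (i + C.length + 1)).map M.b) ≤ M.R C i (LinearMap.ker M.a ⊓ M.G (i + C.length)) := by
  apply R_mono
  rintro _ ⟨w, hw, rfl⟩
  exact ⟨M.ab w, bG M hw⟩

theorem lo_append (C E : List Bool) (i : ZMod 4) : lo M C i ≤ lo M (C ++ E) i := by
  unfold lo
  rw [R_append]
  exact R_mono M C i bot_le

theorem hi_append (C E : List Bool) (i : ZMod 4) : hi M (C ++ E) i ≤ hi M C i := by
  unfold hi
  rw [R_append]
  apply R_mono
  apply R_le
  rw [List.length_append]
  push_cast
  rw [add_assoc]

theorem lo_le_hi (C : List Bool) (i : ZMod 4) : lo M C i ≤ hi M C i := R_mono M C i bot_le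

/-- the prefixes of an infinite word -/
def pre (u : ℕ → Bool) (N : ℕ) : List Bool := List.ofFn fun m : Fin N => u m

theorem pre_succ (u : ℕ → Bool) (N : ℕ) : pre u (N + 1) = pre u N ++ [u N] := by
  unfold pre
  rw [List.ofFn_succ']
  simp

theorem pre_len (u : ℕ → Bool) (N : ℕ) : (pre u N).length = N := by simp [pre]

theorem pre_add (u : ℕ → Bool) (s N : ℕ) : pre u (s + N) = pre u s ++ pre (fun m => u (s + m)) N := by
  induction N with
  | zero => simp [pre]
  | succ N ih => rw [← add_assoc, pre_succ, ih, pre_succ, List.append_assoc]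

theorem pre_congr {u u' : ℕ → Bool} {m : ℕ} (h : ∀ l < m, u l = u' l) : pre u m = pre u' m := by
  unfold pre
  congr 1
  funext l
  exact h l l.2

/-- words which differ have disjoint intervals -/
theorem sep {u u' : ℕ → Bool} {m : ℕ} (h : ∀ l < m, u l = u' l) (h0 : u m = false) (h1 : u' m = true)
    {N : ℕ} (hN : m < N) (i : ZMod 4) : hi M (pre u N) i ≤ lo M (pre u' N) i := by
  obtain ⟨r, rfl⟩ : ∃ r, N = (m + 1) + r := ⟨N - (m + 1), by omega⟩
  rw [pre_add u, pre_add u', pre_succ u, pre_succ u', h0, h1, ← pre_congr h]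
  calc hi M (pre u m ++ [false] ++ pre (fun l => u (m + 1 + l)) r) i ≤ hi M (pre u m ++ [false]) i :=
        hi_append M _ _ i
    _ ≤ lo M (pre u m ++ [true]) i := by
        rw [hi_false, lo_true]
        exact mid M _ i
    _ ≤ _ := lo_append M _ _ i

/-- the property of infinite words -/
def Good (u : ℕ → Bool) (i : ZMod 4) : Prop := ∀ N, lo M (pre u N) i ≠ hi M (pre u N) i

theorem good_shift {u : ℕ → Bool} {i : ZMod 4} (h : Good M u i) (s : ℕ) :
    Good M (fun m => u (s + m)) (i + s) := by
  intro N hN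
  apply h (s + N)
  rw [pre_add]
  have e1 : lo M (pre u s ++ pre (fun m => u (s + m)) N) i =
      M.R (pre u s) i (lo M (pre (fun m => u (s + m)) N) (i + s)) := by
    unfold lo
    rw [R_append, pre_len]
  have e2 : hi M (pre u s ++ pre (fun m => u (s + m)) N) i =
      M.R (pre u s) i (hi M (pre (fun m => u (s + m)) N) (i + s)) := by
    unfold hi
    rw [R_append, pre_len, List.length_append, pre_len, pre_len]
    push_cast
    rw [add_assoc]
  rw [e1, e2, hN]

variable [FiniteDimensional k V]

theorem rank_lt {u u' : ℕ → Bool} {i : ZMod 4} (hu' : Good M u' i) {m : ℕ}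
    (h : ∀ l < m, u l = u' l) (h0 : u m = false) (h1 : u' m = true) {N : ℕ} (hN : m < N) :
    Module.finrank k (hi M (pre u N) i) < Module.finrank k (hi M (pre u' N) i) := by
  have h2 : hi M (pre u N) i < hi M (pre u' N) i :=
    lt_of_le_of_lt (sep M h h0 h1 hN i) (lt_of_le_of_ne (lo_le_hi M _ i) (hu' N))
  exact Submodule.finrank_lt_finrank_of_lt h2

theorem rank_ne {u u' : ℕ → Bool} {i : ZMod 4} (hu : Good M u i) (hu' : Good M u' i) (hne : u ≠ u') :
    ∃ m, ∀ N, m < N → Module.finrank k (hi M (pre u N) i) ≠ Module.finrank k (hi M (pre u' N) i) := by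
  classical
  have hex : ∃ m, u m ≠ u' m := by
    by_contra hcon
    push Not at hcon
    exact hne (funext hcon)
  refine ⟨Nat.find hex, fun N hN => ?_⟩
  have h1 := Nat.find_spec hex
  have h2 : ∀ l < Nat.find hex, u l = u' l := by
    intro l hl
    have := Nat.find_min hex hl
    push Not at this
    exact this
  rcases Bool.eq_false_or_eq_true (u (Nat.find hex)) with h3 | h3
  · have h4 : u' (Nat.find hex) = false := by
      rw [h3] at h1
      cases h5 : u' (Nat.find hex)
      · rfl
      · exact absurd h5.symm h1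
    exact (rank_lt M hu (fun l hl => (h2 l hl).symm) h4 h3 hN).ne'
  · have h4 : u' (Nat.find hex) = true := by
      rw [h3] at h1
      cases h5 : u' (Nat.find hex)
      · exact absurd h5.symm h1
      · rfl
    exact (rank_lt M hu' h2 h3 h4 hN).ne

theorem eventually_rep {u : ℕ → Bool} {i : ZMod 4} (h : Good M u i) :
    ∃ s t : ℕ, s < t ∧ ∀ m, u (4 * s + m) = u (4 * t + m) := by
  classical
  obtain ⟨d, hd⟩ : ∃ d, d = Module.finrank k V := ⟨_, rfl⟩
  have hg : ∀ s : ℕ, Good M (fun m => u (4 * s + m)) i := by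
    intro s
    have := good_shift M h (4 * s)
    have e : i + ((4 * s : ℕ) : ZMod 4) = i := by
      push_cast
      have : (4 : ZMod 4) = 0 := by decide
      rw [this, zero_mul, add_zero]
    rw [e] at this
    exact this
  by_contra hcon
  push Not at hcon
  have hne : ∀ s t : ℕ, s ≠ t → (fun m => u (4 * s + m)) ≠ (fun m => u (4 * t + m)) := by
    intro s t hst heq
    rcases lt_or_gt_of_ne hst with h1 | h1
    · obtain ⟨m, hm⟩ := hcon s t h1
      exact hm (congrFun heq m)
    · obtain ⟨m, hm⟩ := hcon t s h1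
      exact hm (congrFun heq m).symm
  have hr : ∀ s t : ℕ, ∃ m, s ≠ t → ∀ N, m < N →
      Module.finrank k (hi M (pre (fun m => u (4 * s + m)) N) i) ≠
      Module.finrank k (hi M (pre (fun m => u (4 * t + m)) N) i) := by
    intro s t
    by_cases hst : s = t
    · exact ⟨0, fun h => absurd hst h⟩
    · obtain ⟨m, hm⟩ := rank_ne M (hg s) (hg t) (hne s t hst)
      exact ⟨m, fun _ => hm⟩
  choose mm hmm using hr
  obtain ⟨N, hN⟩ : ∃ N, ∀ s t : ℕ, s ≤ d → t ≤ d → mm s t < N := by
    refine ⟨∑ s ∈ Finset.range (d + 1), ∑ t ∈ Finset.range (d + 1), mm s t + 1, fun s t hs ht => ?_⟩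
    have h1 : mm s t ≤ ∑ t ∈ Finset.range (d + 1), mm s t :=
      Finset.single_le_sum (f := fun t => mm s t) (fun _ _ => Nat.zero_le _) (Finset.mem_range.mpr (by omega))
    have h2 : ∑ t ∈ Finset.range (d + 1), mm s t ≤ ∑ s ∈ Finset.range (d + 1), ∑ t ∈ Finset.range (d + 1), mm s t :=
      Finset.single_le_sum (f := fun s => ∑ t ∈ Finset.range (d + 1), mm s t) (fun _ _ => Nat.zero_le _)
        (Finset.mem_range.mpr (by omega))
    omega
  have hmaps : ∀ s ∈ Finset.range (d + 1),
      Module.finrank k (hi M (pre (fun m => u (4 * s + m)) N) i) ∈ Finset.Icc 1 d := by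
    intro s _
    rw [Finset.mem_Icc]
    constructor
    · have h1 : lo M (pre (fun m => u (4 * s + m)) N) i < hi M (pre (fun m => u (4 * s + m)) N) i :=
        lt_of_le_of_ne (lo_le_hi M _ i) (hg s N)
      have h2 := Submodule.finrank_lt_finrank_of_lt h1
      omega
    · rw [hd]
      exact Submodule.finrank_le _
  obtain ⟨s, hs, t, ht, hst, heq⟩ := Finset.exists_ne_map_eq_of_card_lt_of_maps_to
    (s := Finset.range (d + 1)) (t := Finset.Icc 1 d) (by simp) hmaps
  exact hmm s t hst N (hN s t (by have := Finset.mem_range.mp hs; omega) (by have := Finset.mem_range.mp ht; omega)) heq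

/-- the periodic word -/
theorem per_word {u : ℕ → Bool} {i : ZMod 4} (h : Good M u i) :
    ∃ (j : ZMod 4) (n : ℕ) (u : ℕ → Bool), 0 < n ∧ 4 ∣ n ∧ (∀ m, u (m + n) = u m) ∧
      (∀ p, 0 < p → p < n → 4 ∣ p → ∃ m, u (m + p) ≠ u m) ∧
      ∀ N : ℕ, M.R (List.ofFn fun m : Fin N => u m) j ⊥ ≠
        M.R (List.ofFn fun m : Fin N => u m) j (M.G (j + N)) := by
  classical
  obtain ⟨s, t, hst, hrep⟩ := eventually_rep M h
  obtain ⟨w, hw⟩ : ∃ w : ℕ → Bool, w = fun m => u (4 * s + m) := ⟨_, rfl⟩
  have hgw : Good M w (i + (4 * s : ℕ)) := by rw [hw]; exact good_shift M h (4 * s)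
  have hex : ∃ n, 0 < n ∧ 4 ∣ n ∧ ∀ m, w (m + n) = w m := by
    refine ⟨4 * (t - s), by omega, ⟨_, rfl⟩, fun m => ?_⟩
    rw [hw]
    simp only
    rw [hrep m]
    congr 1
    omega
  refine ⟨i + (4 * s : ℕ), Nat.find hex, w, (Nat.find_spec hex).1, (Nat.find_spec hex).2.1,
    (Nat.find_spec hex).2.2, ?_, ?_⟩
  · intro p hp hpn h4
    by_contra hcon
    push Not at hcon
    exact Nat.find_min hex hpn ⟨hp, h4, hcon⟩
  · intro N
    have := hgw N
    unfold lo hi at this
    rw [pre_len] at this
    exact this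

/-- an infinite word from a property of finite words -/
theorem inf_word {P : List Bool → Prop} (h0 : P []) (h : ∀ C, P C → P (C ++ [false]) ∨ P (C ++ [true])) :
    ∃ u : ℕ → Bool, ∀ N, P (pre u N) := by
  classical
  have h' : ∀ C : {C // P C}, ∃ c : Bool, P (C.1 ++ [c]) := by
    rintro ⟨C, hC⟩
    rcases h C hC with h1 | h1
    · exact ⟨false, h1⟩
    · exact ⟨true, h1⟩
  choose c hc using h'
  let g : ℕ → {C // P C} := fun n => Nat.rec ⟨[], h0⟩ (fun _ C => ⟨C.1 ++ [c C], hc C⟩) n
  have hg : ∀ n, g (n + 1) = ⟨(g n).1 ++ [c (g n)], hc (g n)⟩ := fun n => rfl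
  refine ⟨fun n => c (g n), fun N => ?_⟩
  have h1 : ∀ N, pre (fun n => c (g n)) N = (g N).1 := by
    intro N
    induction N with
    | zero => simp [pre, g]
    | succ N ih => rw [pre_succ, ih, hg]
  rw [h1]
  exact (g N).2

omit [FiniteDimensional k V] in
theorem G_sum_mem (v : V) (S : Submodule k V) (h : ∀ i, M.π i v ∈ S) : v ∈ S := by
  rw [← M.sum v]
  exact Submodule.sum_mem _ (fun i _ => h i)

theorem t_WORD : S_WORD := by
  intro k V _ _ _ _ _ M
  classical
  by_cases hker : LinearMap.ker M.b = LinearMap.range M.a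
  · -- case 2
    right
    have hka : LinearMap.ker M.a = LinearMap.range M.b := by
      symm
      apply Submodule.eq_of_le_of_finrank_eq
      · rintro _ ⟨w, rfl⟩
        exact M.ab w
      · have h1 := LinearMap.finrank_range_add_finrank_ker M.a
        have h2 := LinearMap.finrank_range_add_finrank_ker M.b
        rw [hker] at h2
        omega
    have hmid : ∀ j, (M.G (j + 1)).map M.b = LinearMap.ker M.a ⊓ M.G j := by
      intro j
      apply le_antisymm
      · rintro _ ⟨w, hw, rfl⟩
        exact ⟨M.ab w, bG M hw⟩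
      · rintro v ⟨hv1, hv2⟩
        have hv3 : v ∈ LinearMap.range M.b := by rw [← hka]; exact hv1
        obtain ⟨w, rfl⟩ := hv3
        refine ⟨M.π (j + 1) w, ⟨w, rfl⟩, ?_⟩
        rw [M.bπ]
        exact (mem_G M).mp hv2
    obtain ⟨i, hi0⟩ : ∃ i, M.G i ≠ ⊥ := by
      by_contra hcon
      push Not at hcon
      obtain ⟨v, hv⟩ := exists_ne (0 : V)
      apply hv
      have : v ∈ (⊥ : Submodule k V) := by
        apply G_sum_mem M v
        intro i
        rw [← hcon i]
        exact ⟨v, rfl⟩
      exact this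
    obtain ⟨u, hu⟩ := inf_word (P := fun C => lo M C i ≠ hi M C i) (by
      unfold lo hi
      simp only [GMod.R, List.length_nil, Nat.cast_zero, add_zero]
      exact hi0.symm) (by
      intro C hC
      by_contra hcon
      push Not at hcon
      obtain ⟨h1, h2⟩ := hcon
      apply hC
      rw [lo_false, hi_false, hmid] at h1
      rw [lo_true, hi_true] at h2
      rw [h1, h2])
    exact per_word M (u := u) (i := i) hu
  · -- case 1
    have hle : LinearMap.range M.a ≤ LinearMap.ker M.b := by
      rintro _ ⟨w, rfl⟩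
      exact M.ba w
    obtain ⟨v, hv1, hv2⟩ : ∃ v ∈ LinearMap.ker M.b, v ∉ LinearMap.range M.a := by
      by_contra hcon
      push Not at hcon
      exact hker (le_antisymm hcon hle)
    obtain ⟨i, hi0⟩ : ∃ i, M.π i v ∉ LinearMap.range M.a := by
      by_contra hcon
      push Not at hcon
      exact hv2 (G_sum_mem M v _ hcon)
    have hvk : M.b (M.π i v) = 0 := by
      have h1 := M.bπ (i - 1) v
      rw [sub_add_cancel] at h1
      rw [h1, LinearMap.mem_ker.mp hv1, map_zero]
    obtain ⟨U, hU⟩ : ∃ U, U = LinearMap.ker M.b ⊓ M.G i := ⟨_, rfl⟩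
    obtain ⟨U', hU'⟩ : ∃ U', U' = M.G i ⊓ LinearMap.range M.a := ⟨_, rfl⟩
    obtain ⟨f, hf⟩ : ∃ f : Submodule k V → Submodule k V, f = fun W => (U ⊓ W) ⊔ U' := ⟨_, rfl⟩
    by_cases hfin : ∃ C : List Bool, f (M.R C i ((M.G (i + C.length + 1)).map M.b)) ≠
        f (M.R C i (LinearMap.ker M.a ⊓ M.G (i + C.length)))
    · left
      obtain ⟨C, hC⟩ := hfin
      have hsub : f (M.R C i ((M.G (i + C.length + 1)).map M.b)) ≤
          f (M.R C i (LinearMap.ker M.a ⊓ M.G (i + C.length))) := by
        rw [hf]
        exact sup_le_sup_right (inf_le_inf_left _ (mid M C i)) _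
      obtain ⟨x, hx1, hx2⟩ := SetLike.exists_of_lt (lt_of_le_of_ne hsub hC)
      rw [hf] at hx1 hx2
      obtain ⟨y, hy, z, hz, hyz⟩ := Submodule.mem_sup.mp hx1
      have hy2 : y ∉ (U ⊓ M.R C i ((M.G (i + C.length + 1)).map M.b)) ⊔ U' := by
        intro hy3
        apply hx2
        rw [← hyz]
        exact add_mem hy3 (Submodule.mem_sup_right hz)
      have hyU : y ∈ U := hy.1
      rw [hU] at hyU
      refine ⟨i, C, y, hyU.2, hyU.1, hy.2, ?_⟩
      intro hy4
      obtain ⟨r, hr, s, hs, hrs⟩ := Submodule.mem_sup.mp hy4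
      have hrG : r ∈ M.G i := by
        refine R_le M C i ?_ hr
        rintro _ ⟨w, hw, rfl⟩
        exact bG M hw
      have hsG : s ∈ M.G i := by
        have : s = y - r := by rw [← hrs]; abel
        rw [this]
        exact sub_mem hyU.2 hrG
      apply hy2
      rw [← hrs]
      refine add_mem (Submodule.mem_sup_left ⟨?_, hr⟩) (Submodule.mem_sup_right ?_)
      · rw [hU]
        refine ⟨?_, hrG⟩
        have : r = y - s := by rw [← hrs]; abel
        rw [this]
        exact sub_mem hyU.1 (hle hs)
      · rw [hU']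
        exact ⟨hsG, hs⟩
    · right
      push Not at hfin
      obtain ⟨u, hu⟩ := inf_word (P := fun C => f (lo M C i) ≠ f (hi M C i)) (by
        intro h1
        apply hi0
        have h2 : M.π i v ∈ f (hi M [] i) := by
          rw [hf]
          apply Submodule.mem_sup_left
          rw [hU]
          unfold hi
          simp only [GMod.R, List.length_nil, Nat.cast_zero, add_zero]
          exact ⟨⟨hvk, ⟨v, rfl⟩⟩, ⟨v, rfl⟩⟩
        rw [← h1, hf] at h2
        unfold lo at h2
        simp only [GMod.R, inf_bot_eq, bot_sup_eq] at h2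
        rw [hU'] at h2
        exact h2.2) (by
        intro C hC
        by_contra hcon
        push Not at hcon
        obtain ⟨h1, h2⟩ := hcon
        apply hC
        rw [lo_false, hi_false] at h1
        rw [lo_true, hi_true] at h2
        rw [h1, hfin C, h2])
      exact per_word M (u := u) (i := i) (fun N hN => hu N (congrArg f hN))

end Pool.Agent.J4H98.TH
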