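import Pool.Agent.J4H84.TH.Jobs2
import Pool.Agent.J4H41.TH.Rel
import Pool.Agent.J4H98.TH.Word
import Pool.Agent.J4H98.TH.Jordan

set_option autoImplicit false

/-! TH: DATA. String and band data (helper98), after the sketch of helper84. -/

namespace Pool.Agent.J4H98.TH

open Pool.Agent.J4H84.TH

universe u

variable {k V : Type u} [Field k] [AddCommGroup V] [Module k V] (M : GMod k V)

/-! ### Strings -/

/-- the functional at the end of a string -/
theorem string_beta {i : ZMod 4} {C : List Bool} {φ : V →ₗ[k] k}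
    (hφ : ∀ x ∈ M.R C i ((M.G (i + C.length + 1)).map M.b), φ x = 0) :
    ∃ β : V →ₗ[k] k, (∀ u v, (u, v) ∈ M.Rel C i → φ u = β v) ∧ (∀ v, β (M.b v) = 0) ∧
      ∀ v, β (M.π (i + C.length) v) = β v := by
  let sw : V × V →ₗ[k] V × k := (LinearMap.snd k V V).prod (φ.comp (LinearMap.fst k V V))
  let T : Submodule k (V × k) := (M.Rel C i).map sw ⊔ LinearMap.range (M.b.prod 0)
  obtain ⟨β, hβ⟩ := lin_ext T (by
    intro q hq
    obtain ⟨p1, ⟨⟨u', v'⟩, huv, hp1⟩, p2, ⟨x, hx⟩, hq⟩ := Submodule.mem_sup.1 hq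
    subst hp1 hx
    have q1 : v' + M.b x = 0 := congrArg Prod.fst hq
    have q2 : φ u' + 0 = q := congrArg Prod.snd hq
    rw [add_zero] at q2
    rw [← q2]
    apply hφ
    have hW : (M.G (i + C.length + 1)).map M.b ≤ M.G (i + C.length) := by
      rintro _ ⟨w, hw, rfl⟩
      exact M.b_mem hw
    rw [M.mem_R C i _ hW]
    refine ⟨v', ?_, huv⟩
    have hv' : v' ∈ M.G (i + C.length) := M.rel_right _ _ _ _ huv
    refine ⟨M.π (i + C.length + 1) (-x), ⟨-x, rfl⟩, ?_⟩
    rw [M.bπ, map_neg, ← eq_neg_of_add_eq_zero_left q1]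
    exact M.mem_G.1 hv')
  refine ⟨β.comp (M.π (i + C.length)), fun u v huv => ?_, fun v => ?_, fun v => ?_⟩
  · change φ u = β (M.π (i + C.length) v)
    rw [M.mem_G.1 (M.rel_right _ _ _ _ huv)]
    exact (hβ _ _ (Submodule.mem_sup_left ⟨(u, v), huv, rfl⟩)).symm
  · change β (M.π (i + C.length) (M.b v)) = 0
    rw [← M.bπ]
    exact hβ _ _ (Submodule.mem_sup_right ⟨M.π (i + C.length + 1) v, rfl⟩)
  · change β (M.π (i + C.length) (M.π (i + C.length) v)) = β (M.π (i + C.length) v)
    rw [M.idem]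

/-- String data. -/
theorem string_wd {i : ZMod 4} {C : List Bool} {v : V} (hvG : v ∈ M.G i) (hbv : M.b v = 0)
    (h1 : v ∈ M.R C i (LinearMap.ker M.a ⊓ M.G (i + C.length)))
    (h2 : v ∉ M.R C i ((M.G (i + C.length + 1)).map M.b) ⊔ LinearMap.range M.a)
    (T : Matrix (Fin (0 + 1)) (Fin (0 + 1)) k) : Nonempty (WD M (C.length + 1) (0 + 1) T) := by
  obtain ⟨u, ⟨hua, huG⟩, huv⟩ := (M.mem_R C i _ inf_le_right v).1 h1
  replace hua : M.a u = 0 := hua
  -- the functional
  obtain ⟨φ₀, hφ₀, hφ₁⟩ := Submodule.exists_le_ker_of_notMem h2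
  obtain ⟨φ, hφv, hφ0⟩ : ∃ φ : V →ₗ[k] k, φ v = 1 ∧
      ∀ x ∈ M.R C i ((M.G (i + C.length + 1)).map M.b) ⊔ LinearMap.range M.a, φ x = 0 := by
    refine ⟨(φ₀ v)⁻¹ • φ₀, ?_, fun x hx => ?_⟩
    · rw [LinearMap.smul_apply, smul_eq_mul, inv_mul_cancel₀ hφ₀]
    · have := hφ₁ hx
      rw [LinearMap.mem_ker] at this
      rw [LinearMap.smul_apply, this, smul_zero]
  have hRG : M.R C i ((M.G (i + C.length + 1)).map M.b) ≤ M.G i := by
    apply R_le
    rintro _ ⟨w, hw, rfl⟩
    exact M.b_mem hw
  obtain ⟨ψ, hψ⟩ : ∃ ψ : V →ₗ[k] k, ψ = φ.comp (M.π i) := ⟨_, rfl⟩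
  have hψv : ψ v = 1 := by
    rw [hψ, LinearMap.comp_apply, M.mem_G.1 hvG, hφv]
  have hψR : ∀ x ∈ M.R C i ((M.G (i + C.length + 1)).map M.b), ψ x = 0 := by
    intro x hx
    rw [hψ, LinearMap.comp_apply, M.mem_G.1 (hRG hx)]
    exact hφ0 x (Submodule.mem_sup_left hx)
  have hψa : ∀ x, ψ (M.a x) = 0 := by
    intro x
    have e : M.π i (M.a x) = M.a (M.π (i - 1) x) := by
      rw [M.aπ, sub_add_cancel]
    rw [hψ, LinearMap.comp_apply, e]
    exact hφ0 _ (Submodule.mem_sup_right ⟨_, rfl⟩)
  have hψπ : ∀ x, ψ (M.π i x) = ψ x := by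
    intro x
    rw [hψ, LinearMap.comp_apply, LinearMap.comp_apply, M.idem]
  obtain ⟨β, hβ1, hβ2, hβ3⟩ := string_beta M hψR
  -- the chains
  let ev : (Fin (0 + 1) → k) →ₗ[k] k := LinearMap.proj 0
  obtain ⟨F, hF0, hFn, hF, hFG⟩ := M.chain_F C i (ev.smulRight v) (ev.smulRight u)
    (fun q => by
      have := Submodule.smul_mem _ (ev q) huv
      exact this)
  let dg : k →ₗ[k] (Fin (0 + 1) → k) := LinearMap.pi fun _ => LinearMap.id
  obtain ⟨G, hG0, hGn, hG, hGG⟩ := M.chain_G C i (dg.comp ψ) (dg.comp β)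
    (fun u v huv => by
      change dg (ψ u) = dg (β v)
      rw [hβ1 u v huv])
    (fun v => by
      change dg (ψ (M.π i v)) = dg (ψ v)
      rw [hψπ])
    (fun v => by
      change dg (β (M.π (i + C.length) v)) = dg (β v)
      rw [hβ3])
  let w : ℕ → Fin 3 := fun m => if h : m < C.length then (if C[m] = true then 2 else 0) else 1
  have hw1 : ∀ m, w m = 1 ↔ C.length ≤ m := by
    intro m
    by_cases h : m < C.length
    · simp only [w, h, dif_pos]
      constructor
      · intro h'
        split_ifs at h'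
        · exact absurd h' (by decide)
        · exact absurd h' (by decide)
      · intro h'
        exact absurd h (not_lt.2 h')
    · simp only [w, h, dif_neg, not_false_iff]
      exact ⟨fun _ => not_lt.1 h, fun _ => trivial⟩
  have hw2 : ∀ m, w m = 2 → ∃ h : m < C.length, C[m] = true := by
    intro m h'
    by_cases h : m < C.length
    · refine ⟨h, ?_⟩
      simp only [w, h, dif_pos] at h'
      by_contra h3
      rw [if_neg h3] at h'
      exact absurd h' (by decide)
    · simp only [w, h, dif_neg, not_false_iff] at h'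
      exact absurd h' (by decide)
  have hw0 : ∀ m, w m = 0 → ∃ h : m < C.length, C[m] = false := by
    intro m h'
    by_cases h : m < C.length
    · refine ⟨h, ?_⟩
      simp only [w, h, dif_pos] at h'
      by_contra h3
      rw [Bool.not_eq_false] at h3
      rw [if_pos h3] at h'
      exact absurd h' (by decide)
    · simp only [w, h, dif_neg, not_false_iff] at h'
      exact absurd h' (by decide)
  refine ⟨{
    w := w
    i0 := i
    F := fun m => if m ≤ C.length then F m else 0
    G := fun m => if m ≤ C.length then G m else 0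
    npos := Nat.succ_pos _
    F2 := ?_
    F0 := ?_
    F1 := ?_
    G2 := ?_
    G0 := ?_
    G1 := ?_
    Fπ := ?_
    Gπ := ?_
    inj := ?_
    w1 := ?_
    wn := ?_
    dist := ?_
    str := ?_
    band := ?_
    band2 := ?_
    band0 := ?_ }⟩
  · intro m hm q
    obtain ⟨h, hc⟩ := hw2 m hm
    rw [if_pos h.le, if_pos (Nat.succ_le_of_lt h)]
    exact (hF m h).1 hc q
  · intro m hm q
    obtain ⟨h, hc⟩ := hw0 m hm
    rw [if_pos h.le, if_pos (Nat.succ_le_of_lt h)]
    exact (hF m h).2 hc q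
  · intro m hm q
    have h := (hw1 m).1 hm
    by_cases h' : m ≤ C.length
    · have e : m = C.length := le_antisymm h' h
      rw [if_pos h', e, hFn, LinearMap.smulRight_apply, map_smul, hua, smul_zero]
    · rw [if_neg h', LinearMap.zero_apply, map_zero]
  · intro m hm v
    obtain ⟨h, hc⟩ := hw2 m hm
    rw [if_pos h.le, if_pos (Nat.succ_le_of_lt h)]
    exact (hG m h).1 hc v
  · intro m hm v
    obtain ⟨h, hc⟩ := hw0 m hm
    rw [if_pos h.le, if_pos (Nat.succ_le_of_lt h)]
    exact (hG m h).2 hc v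
  · intro m hm v
    have h := (hw1 m).1 hm
    by_cases h' : m ≤ C.length
    · have e : m = C.length := le_antisymm h' h
      rw [if_pos h', e, hGn, LinearMap.comp_apply, hβ2, map_zero]
    · rw [if_neg h', LinearMap.zero_apply]
  · intro m q
    by_cases h' : m ≤ C.length
    · rw [if_pos h']
      exact M.mem_G.1 (hFG m h' q)
    · rw [if_neg h', LinearMap.zero_apply, map_zero]
  · intro m v
    by_cases h' : m ≤ C.length
    · rw [if_pos h']
      exact hGG m h' v
    · rw [if_neg h', LinearMap.zero_apply, LinearMap.zero_apply]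
  · intro q q' hqq
    simp only [Nat.zero_le, if_true] at hqq
    rw [hF0, hG0] at hqq
    have h5 := congrFun hqq 0
    change ψ (q 0 • v) = ψ (q' 0 • v) at h5
    rw [map_smul, map_smul, hψv, smul_eq_mul, smul_eq_mul, mul_one, mul_one] at h5
    funext x
    have hx : x = 0 := Fin.ext (by omega)
    rw [hx]
    exact h5
  · intro m hm
    exact (hw1 _).2 (((hw1 m).1 hm).trans (Nat.le_succ m))
  · intro m hm h
    have := (hw1 m).1 h
    omega
  · intro a b hab hb _
    refine ⟨C.length - b, ?_⟩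
    intro h
    have e1 : w (b + (C.length - b)) = 1 := (hw1 _).2 (by omega)
    rw [e1] at h
    have := (hw1 _).1 h
    omega
  · intro _
    refine ⟨fun q => ?_, fun v => ?_⟩
    · simp only [Nat.zero_le, if_true]
      rw [hF0, LinearMap.smulRight_apply, map_smul, hbv, smul_zero]
    · simp only [Nat.zero_le, if_true]
      rw [hG0, LinearMap.comp_apply, hψa, map_zero]
  · intro h
    exact absurd ((hw1 _).2 (by omega)) h
  · intro h
    have h3 : w (C.length + 1 - 1) = 1 := (hw1 _).2 (by omega)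
    rw [h3] at h
    exact absurd h (by decide)
  · intro h
    have h3 : w (C.length + 1 - 1) = 1 := (hw1 _).2 (by omega)
    rw [h3] at h
    exact absurd h (by decide)

/-! ### Bands -/

/-- Band data. -/
theorem band_wd {j : ZMod 4} {n : ℕ} {u : ℕ → Bool} (hn : 0 < n) (h4 : 4 ∣ n)
    (hper : ∀ m, u (m + n) = u m)
    (hmin : ∀ p, 0 < p → p < n → 4 ∣ p → ∃ m, u (m + p) ≠ u m) {r : ℕ}
    (E : (Fin r → k) ≃ₗ[k] (Fin r → k)) (T : Matrix (Fin r) (Fin r) k)
    (hT2 : u (n - 1) = true → ∀ q, E.symm q = T.mulVec q)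
    (hT0 : u (n - 1) = false → ∀ q, E q = T.mulVec q)
    (f : (Fin r → k) →ₗ[k] V) (g : V →ₗ[k] (Fin r → k))
    (hf : ∀ q, (f (E q), f q) ∈ M.Rel (pre u n) j)
    (hg : ∀ b a, (b, a) ∈ M.Rel (pre u n) j → g b = E (g a))
    (hgπ : ∀ v, g (M.π j v) = g v) (hinj : Function.Injective fun q => g (f q)) :
    Nonempty (WD M n r T) := by
  have hlen : (pre u n).length = n := pre_len u n
  have hn0 : ((n : ℕ) : ZMod 4) = 0 := (ZMod.natCast_eq_zero_iff n 4).2 h4
  have hget : ∀ (m : ℕ) (h : m < (pre u n).length), (pre u n)[m] = u m := by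
    intro m h
    simp [pre]
  obtain ⟨Fc, hF0, hFn, hF, hFG⟩ := M.chain_F (pre u n) j (f.comp E.toLinearMap) f hf
  obtain ⟨Gc, hG0, hGn, hG, hGG⟩ := M.chain_G (pre u n) j g (E.toLinearMap.comp g)
    (fun b a h => hg b a h) hgπ (by
      intro v
      rw [hlen, hn0, add_zero]
      change E (g (M.π j v)) = E (g v)
      rw [hgπ])
  rw [hlen] at hFn hGn
  -- powers
  let P : ℕ → (Fin r → k) ≃ₗ[k] (Fin r → k) := fun m => E ^ m
  have hP0 : ∀ q, P 0 q = q := fun q => by simp [P]
  have hPs : ∀ m q, P (m + 1) q = E (P m q) := fun m q => by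
    simp only [P]
    rw [pow_succ']
    rfl
  have hPs' : ∀ m q, (P (m + 1)).symm q = E.symm ((P m).symm q) := fun m q => by
    apply (P (m + 1)).injective
    rw [LinearEquiv.apply_symm_apply]
    have : P (m + 1) = P m * E := by
      simp only [P]
      rw [pow_succ]
    rw [this]
    change q = P m (E (E.symm ((P m).symm q)))
    rw [LinearEquiv.apply_symm_apply, LinearEquiv.apply_symm_apply]
  let F : ℕ → (Fin r → k) →ₗ[k] V := fun m => (Fc (m % n)).comp (P (m / n)).symm.toLinearMap
  let G : ℕ → V →ₗ[k] (Fin r → k) := fun m => (P (m / n)).toLinearMap.comp (Gc (m % n))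
  -- the next position
  have hnext : ∀ m, (m + 1) % n = m % n + 1 ∧ (m + 1) / n = m / n ∨
      m % n + 1 = n ∧ (m + 1) % n = 0 ∧ (m + 1) / n = m / n + 1 := by
    intro m
    have e1 := Nat.div_add_mod m n
    have e2 := Nat.mod_lt m hn
    rcases Nat.lt_or_ge (m % n + 1) n with h | h
    · left
      have e3 : m + 1 = n * (m / n) + (m % n + 1) := by omega
      refine ⟨?_, ?_⟩
      · conv_lhs => rw [e3]
        rw [Nat.mul_add_mod, Nat.mod_eq_of_lt h]
      · conv_lhs => rw [e3]
        rw [Nat.mul_add_div hn, Nat.div_eq_of_lt h, add_zero]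
    · right
      have e4 : m % n + 1 = n := by omega
      have e3 : m + 1 = n * (m / n + 1) := by rw [mul_add, mul_one]; omega
      refine ⟨e4, ?_, ?_⟩
      · rw [e3, Nat.mul_mod_right]
      · rw [e3, Nat.mul_div_cancel_left _ hn]
  have hFnext : ∀ m q, F (m + 1) q = Fc (m % n + 1) ((P (m / n)).symm q) := by
    intro m q
    change Fc ((m + 1) % n) ((P ((m + 1) / n)).symm q) = _
    rcases hnext m with ⟨e1, e2⟩ | ⟨e1, e2, e3⟩
    · rw [e1, e2]
    · rw [e2, e3, e1, hF0, hFn, hPs']
      change f (E (E.symm _)) = _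
      rw [LinearEquiv.apply_symm_apply]
  have hGnext : ∀ m v, G (m + 1) v = P (m / n) (Gc (m % n + 1) v) := by
    intro m v
    change P ((m + 1) / n) (Gc ((m + 1) % n) v) = _
    rcases hnext m with ⟨e1, e2⟩ | ⟨e1, e2, e3⟩
    · rw [e1, e2]
    · rw [e2, e3, e1, hG0, hGn]
      change P (m / n + 1) (g v) = P (m / n) (E (g v))
      have : P (m / n + 1) = P (m / n) * E := by
        simp only [P]
        rw [pow_succ]
      rw [this]
      rfl
  have hum : ∀ m, u (m % n) = u m := by
    intro m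
    have key : ∀ l m, u (m + n * l) = u m := by
      intro l
      induction l with
      | zero => intro m; rw [mul_zero, add_zero]
      | succ l ih =>
        intro m
        rw [mul_add, mul_one, ← add_assoc, hper, ih]
    conv_rhs => rw [← Nat.mod_add_div m n]
    rw [key]
  have hcast : ∀ m : ℕ, ((m % n : ℕ) : ZMod 4) = m := by
    intro m
    conv_rhs => rw [← Nat.mod_add_div m n]
    rw [Nat.cast_add, Nat.cast_mul, hn0, zero_mul, add_zero]
  let w : ℕ → Fin 3 := fun m => if u m = true then 2 else 0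
  have hw1 : ∀ m, w m ≠ 1 := by
    intro m h
    simp only [w] at h
    split_ifs at h
    · exact absurd h (by decide)
    · exact absurd h (by decide)
  have hw2 : ∀ m, w m = 2 → u m = true := by
    intro m h'
    by_contra h3
    simp only [w] at h'
    rw [if_neg h3] at h'
    exact absurd h' (by decide)
  have hw0 : ∀ m, w m = 0 → u m = false := by
    intro m h'
    by_contra h3
    rw [Bool.not_eq_false] at h3
    simp only [w] at h'
    rw [if_pos h3] at h'
    exact absurd h' (by decide)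
  have hnn : n / n = 1 := Nat.div_self hn
  have hF_n : ∀ q, F n q = f (E (E.symm q)) := by
    intro q
    change Fc (n % n) ((P (n / n)).symm q) = _
    rw [Nat.mod_self, hnn, hF0]
    have := hPs' 0 q
    rw [zero_add] at this
    rw [this]
    have h0 : (P 0).symm q = q := by
      apply (P 0).injective
      rw [LinearEquiv.apply_symm_apply, hP0]
    rw [h0]
    rfl
  have hF_0 : ∀ q, F 0 q = f (E q) := by
    intro q
    change Fc (0 % n) ((P (0 / n)).symm q) = _
    rw [Nat.zero_mod, Nat.zero_div, hF0]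
    have h0 : (P 0).symm q = q := by
      apply (P 0).injective
      rw [LinearEquiv.apply_symm_apply, hP0]
    rw [h0]
    rfl
  have hG_n : ∀ v, G n v = E (g v) := by
    intro v
    change P (n / n) (Gc (n % n) v) = _
    rw [Nat.mod_self, hnn, hG0]
    have := hPs 0 (g v)
    rw [zero_add, hP0] at this
    exact this
  have hG_0 : ∀ v, G 0 v = g v := by
    intro v
    change P (0 / n) (Gc (0 % n) v) = _
    rw [Nat.zero_mod, Nat.zero_div, hG0, hP0]
  have hml : ∀ m, m % n < (pre u n).length := fun m => by rw [hlen]; exact Nat.mod_lt m hn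
  refine ⟨{
    w := w
    i0 := j
    F := F
    G := G
    npos := hn
    F2 := ?_
    F0 := ?_
    F1 := fun m h => absurd h (hw1 m)
    G2 := ?_
    G0 := ?_
    G1 := fun m h => absurd h (hw1 m)
    Fπ := ?_
    Gπ := ?_
    inj := ?_
    w1 := fun m h => absurd h (hw1 m)
    wn := fun m _ => hw1 m
    dist := ?_
    str := fun h => absurd h (hw1 _)
    band := fun _ => h4
    band2 := ?_
    band0 := ?_ }⟩
  · intro m hm q
    rw [hFnext]
    refine (hF (m % n) (hml m)).1 ?_ _
    rw [hget, hum]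
    exact hw2 m hm
  · intro m hm q
    rw [hFnext]
    refine (hF (m % n) (hml m)).2 ?_ _
    rw [hget, hum]
    exact hw0 m hm
  · intro m hm v
    rw [hGnext]
    change _ = P (m / n) (Gc (m % n) v)
    congr 1
    refine (hG (m % n) (hml m)).1 ?_ _
    rw [hget, hum]
    exact hw2 m hm
  · intro m hm v
    rw [hGnext]
    change P (m / n) (Gc (m % n) (M.b v)) = _
    congr 1
    refine (hG (m % n) (hml m)).2 ?_ _
    rw [hget, hum]
    exact hw0 m hm
  · intro m q
    change M.π (j + m) (Fc (m % n) ((P (m / n)).symm q)) = Fc (m % n) ((P (m / n)).symm q)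
    rw [← hcast m]
    exact M.mem_G.1 (hFG (m % n) (hml m).le _)
  · intro m v
    change P (m / n) (Gc (m % n) (M.π (j + m) v)) = P (m / n) (Gc (m % n) v)
    rw [← hcast m, hGG (m % n) (hml m).le]
  · intro q q' hqq
    have h5 : g (f (E q)) = g (f (E q')) := by
      have : G 0 (F 0 q) = G 0 (F 0 q') := hqq
      rwa [hG_0, hG_0, hF_0, hF_0] at this
    exact E.injective (hinj h5)
  · intro a b hab hb hc
    by_contra hcon
    push Not at hcon
    obtain ⟨p, rfl⟩ := Nat.exists_eq_add_of_lt hab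
    have hp4 : 4 ∣ p + 1 := by
      rw [← ZMod.natCast_eq_zero_iff]
      have h6 : ((a + p + 1 : ℕ) : ZMod 4) = a + ((p + 1 : ℕ) : ZMod 4) := by
        push_cast
        ring
      rw [h6] at hc
      exact left_eq_add.1 hc
    obtain ⟨m, hm⟩ := hmin (p + 1) (Nat.succ_pos p) (by omega) hp4
    apply hm
    have key : ∀ l m, u (m + n * l) = u m := by
      intro l
      induction l with
      | zero => intro m; rw [mul_zero, add_zero]
      | succ l ih =>
        intro m
        rw [mul_add, mul_one, ← add_assoc, hper, ih]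
    have hwu : ∀ s t, w s = w t → u s = u t := by
      intro s t h
      cases hs : u s with
      | true =>
        have : w s = 2 := by simp only [w, hs, if_true]
        rw [this] at h
        exact (hw2 t h.symm).symm
      | false =>
        have : w s = 0 := by
          simp only [w, hs]
          rfl
        rw [this] at h
        exact (hw0 t h.symm).symm
    have hle : a ≤ n * a := Nat.le_mul_of_pos_left a hn
    have h7 := hwu _ _ (hcon (m + (n * a - a)))
    have e1 : a + (m + (n * a - a)) = m + n * a := by omega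
    have e2 : a + p + 1 + (m + (n * a - a)) = m + (p + 1) + n * a := by omega
    rw [e1, e2, key, key] at h7
    exact h7.symm
  · intro h
    have hu := hT2 (hw2 _ h)
    refine ⟨fun q => ?_, fun v => ?_⟩
    · rw [hF_n, hF_0, ← hu q]
    · rw [hG_n, hG_0, ← hu, LinearEquiv.symm_apply_apply]
  · intro h
    have hu := hT0 (hw0 _ h)
    refine ⟨fun q => ?_, fun v => ?_⟩
    · rw [hF_n, hF_0, ← hu q, LinearEquiv.symm_apply_apply]
    · rw [hG_n, hG_0, ← hu]

/-! ### The iterates of the relation -/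

theorem relApp_eq {B : List Bool} {j : ZMod 4} {W : Submodule k V}
    (hW : W ≤ M.G (j + B.length)) : relApp (M.Rel B j) W = M.R B j W := by
  ext u
  rw [M.mem_R B j W hW]
  constructor
  · rintro ⟨⟨u', v⟩, ⟨h1, h2⟩, rfl⟩
    exact ⟨v, h2, h1⟩
  · rintro ⟨v, h1, h2⟩
    exact ⟨(u, v), ⟨h2, h1⟩, rfl⟩

theorem relApp_inf {B : List Bool} {j : ZMod 4} (W : Submodule k V) :
    relApp (M.Rel B j) W = relApp (M.Rel B j) (W ⊓ M.G (j + B.length)) := by
  ext u
  constructor
  · rintro ⟨⟨u', v⟩, ⟨h1, h2⟩, rfl⟩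
    exact ⟨(u', v), ⟨h1, h2, M.rel_right _ _ _ _ h1⟩, rfl⟩
  · rintro ⟨⟨u', v⟩, ⟨h1, h2, -⟩, rfl⟩
    exact ⟨(u', v), ⟨h1, h2⟩, rfl⟩

section iter

variable {j : ZMod 4} {n : ℕ} {u : ℕ → Bool}

theorem iter_eq (h4 : 4 ∣ n) (hper : ∀ m, u (m + n) = u m) {W : Submodule k V} (hW : W ≤ M.G j)
    (m : ℕ) : relIter (M.Rel (pre u n) j) m W = M.R (pre u (n * m)) j W := by
  have hn0 : ((n : ℕ) : ZMod 4) = 0 := (ZMod.natCast_eq_zero_iff n 4).2 h4
  induction m with
  | zero => simp [relIter, pre, GMod.R]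
  | succ m ih =>
    change relApp (M.Rel (pre u n) j) (relIter (M.Rel (pre u n) j) m W) = _
    rw [ih, relApp_eq]
    · rw [show n * (m + 1) = n + n * m by ring, pre_add, R_append]
      congr 1
      have e1 : (fun l => u (n + l)) = u := by
        funext l
        rw [add_comm, hper]
      rw [e1, pre_len, hn0, add_zero]
    · rw [pre_len, hn0, add_zero]
      apply R_le
      rw [pre_len, Nat.cast_mul, hn0, zero_mul, add_zero]
      exact hW

theorem iter_top (h4 : 4 ∣ n) (m : ℕ) : relIter (M.Rel (pre u n) j) (m + 1) ⊤ =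
    relIter (M.Rel (pre u n) j) (m + 1) (M.G j) := by
  have hn0 : ((n : ℕ) : ZMod 4) = 0 := (ZMod.natCast_eq_zero_iff n 4).2 h4
  induction m with
  | zero =>
    change relApp (M.Rel (pre u n) j) ⊤ = relApp (M.Rel (pre u n) j) (M.G j)
    rw [relApp_inf, top_inf_eq, pre_len, hn0, add_zero]
  | succ m ih =>
    change relApp (M.Rel (pre u n) j) _ = relApp (M.Rel (pre u n) j) _
    rw [ih]

end iter

theorem t_DATA : S_DATA.{u} := by
  intro k V _ _ _ _ _ _ M
  rcases t_WORD k V M with ⟨i, C, v, h1, h2, h3, h4⟩ | ⟨j, n, u, hn, h4, hper, hmin, hlt⟩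
  · exact ⟨C.length + 1, 0, 0, string_wd M h1 h2 h3 h4 _⟩
  · have hn0 : ((n : ℕ) : ZMod 4) = 0 := (ZMod.natCast_eq_zero_iff n 4).2 h4
    obtain ⟨Q, _, _, A, f, g, hfd, hnt, hf, hg, hgf⟩ :=
      Pool.Agent.J4H41.TH.t_REL k V (M.Rel (pre u n) j) (by
        intro m
        rcases m with _ | m
        · intro h0
          have h5 := hlt 0
          apply h5
          change (⊥ : Submodule k V) = M.G (j + (0 : ℕ))
          change (⊥ : Submodule k V) = ⊤ at h0
          apply le_antisymm bot_le
          rw [h0]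
          exact le_top
        · rw [iter_top M h4, iter_eq M h4 hper bot_le, iter_eq M h4 hper le_rfl]
          have h5 := hlt (n * (m + 1))
          rw [Nat.cast_mul, hn0, zero_mul, add_zero] at h5
          exact h5)
    -- the Jordan block
    obtain ⟨A₁, hA₁⟩ : ∃ A₁ : Q ≃ₗ[k] Q, A₁ = if u (n - 1) = true then A.symm else A := ⟨_, rfl⟩
    obtain ⟨r, μ, fJ, gJ, hfJ, hgJ, hJi⟩ := t_JORDAN k Q A₁.toLinearMap
    have hTi : Function.Injective (jord (r + 1) μ).mulVecLin := by
      rw [injective_iff_map_eq_zero]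
      intro w hw
      rw [Matrix.mulVecLin_apply] at hw
      have h5 := hfJ w
      rw [hw, map_zero] at h5
      have h6 : fJ w = 0 := A₁.injective (by rw [map_zero]; exact h5)
      apply hJi
      change gJ (fJ w) = gJ (fJ 0)
      rw [h6, map_zero, map_zero, map_zero]
    let T' : (Fin (r + 1) → k) ≃ₗ[k] (Fin (r + 1) → k) :=
      LinearEquiv.ofInjectiveEndo _ hTi
    have hT' : ∀ q, T' q = (jord (r + 1) μ).mulVec q := fun q => rfl
    obtain ⟨E, hE⟩ : ∃ E : (Fin (r + 1) → k) ≃ₗ[k] (Fin (r + 1) → k),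
        E = if u (n - 1) = true then T'.symm else T' := ⟨_, rfl⟩
    have hAf : ∀ q, A (fJ q) = fJ (E q) := by
      intro q
      by_cases h : u (n - 1) = true
      · rw [if_pos h] at hA₁ hE
        rw [hE]
        apply A.symm.injective
        rw [LinearEquiv.symm_apply_apply]
        have h5 := hfJ (T'.symm q)
        rw [← hT', LinearEquiv.apply_symm_apply, hA₁] at h5
        exact h5.symm
      · rw [if_neg h] at hA₁ hE
        rw [hE, hT', ← hfJ q, hA₁]
        rfl
    have hAg : ∀ x, gJ (A x) = E (gJ x) := by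
      intro x
      by_cases h : u (n - 1) = true
      · rw [if_pos h] at hA₁ hE
        rw [hE]
        apply T'.injective
        rw [LinearEquiv.apply_symm_apply, hT', ← hgJ (A x), hA₁]
        change gJ (A.symm (A x)) = _
        rw [LinearEquiv.symm_apply_apply]
      · rw [if_neg h] at hA₁ hE
        rw [hE, hT', ← hgJ x, hA₁]
        rfl
    have hfG : ∀ q, f q ∈ M.G j := by
      intro q
      have := M.rel_right _ _ _ _ (hf q)
      rwa [pre_len, hn0, add_zero] at this
    refine ⟨n, r, μ, band_wd M (j := j) hn h4 hper hmin E _ ?_ ?_ (f.comp fJ)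
      (gJ.comp (g.comp (M.π j))) ?_ ?_ ?_ ?_⟩
    · intro h q
      rw [if_pos h] at hE
      rw [hE]
      exact hT' q
    · intro h q
      rw [if_neg (by rw [h]; exact Bool.false_ne_true)] at hE
      rw [hE]
      exact hT' q
    · intro q
      change (f (fJ (E q)), f (fJ q)) ∈ M.Rel (pre u n) j
      rw [← hAf]
      exact hf _
    · intro b a h
      change gJ (g (M.π j b)) = E (gJ (g (M.π j a)))
      have h5 := M.rel_left _ _ _ _ h
      have h6 := M.rel_right _ _ _ _ h
      rw [pre_len, hn0, add_zero] at h6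
      rw [M.mem_G.1 h5, M.mem_G.1 h6, hg b a h, hAg]
    · intro v
      change gJ (g (M.π j (M.π j v))) = gJ (g (M.π j v))
      rw [M.idem]
    · intro q q' h
      have h5 : gJ (g (M.π j (f (fJ q)))) = gJ (g (M.π j (f (fJ q')))) := h
      rw [M.mem_G.1 (hfG _), M.mem_G.1 (hfG _), hgf, hgf] at h5
      exact hJi h5

end Pool.Agent.J4H98.TH
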