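import Pool.Agent.J4H84.TH.Jobs2

set_option autoImplicit false

/-! TH: TRI. Triangularity (helper98), after the sketch of helper84. -/

namespace Pool.Agent.J4H98.TH

open Pool.Agent.J4H84.TH

universe u

section

variable {k V : Type u} [Field k] [AddCommGroup V] [Module k V] {M : GMod k V} {n r : ℕ}
  {T : Matrix (Fin r) (Fin r) k} (D : WD M n r T)

/-- moving along equal letters -/
theorem tri_step {i j : ℕ} (h : D.w i = D.w j) (h1 : D.w i ≠ 1) (q : Fin r → k) :
    D.G j (D.F i q) = D.G (j + 1) (D.F (i + 1) q) := by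
  have h2 : D.w i = 0 ∨ D.w i = 2 := by
    generalize D.w i = x at h1
    fin_cases x
    · exact Or.inl rfl
    · exact absurd rfl h1
    · exact Or.inr rfl
  rcases h2 with h2 | h2
  · rw [D.F0 i h2, D.G0 j (h ▸ h2)]
  · rw [← D.F2 i h2, D.G2 j (h ▸ h2)]

theorem tri_steps {i j : ℕ} (N : ℕ) (h : ∀ m < N, D.w (i + m) = D.w (j + m))
    (h1 : ∀ m < N, D.w (i + m) ≠ 1) (q : Fin r → k) :
    D.G j (D.F i q) = D.G (j + N) (D.F (i + N) q) := by
  induction N with
  | zero => rfl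
  | succ N ih =>
    rw [ih (fun m hm => h m (by omega)) (fun m hm => h1 m (by omega)),
      tri_step D (h N (by omega)) (h1 N (by omega))]
    rfl

theorem tri_one (m l : ℕ) (h : D.w m = 1) : D.w (m + l) = 1 := by
  induction l with
  | zero => exact h
  | succ l ih => exact D.w1 _ ih

/-- (1) -/
theorem tri_lt {i j N : ℕ} (h : ∀ m < N, D.w (i + m) = D.w (j + m))
    (hN : D.w (i + N) < D.w (j + N)) (q : Fin r → k) : D.G j (D.F i q) = 0 := by
  have h1 : ∀ m < N, D.w (i + m) ≠ 1 := by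
    intro m hm h0
    have e1 := tri_one D _ (N - m) h0
    rw [h m hm] at h0
    have e2 := tri_one D _ (N - m) h0
    rw [show i + m + (N - m) = i + N by omega] at e1
    rw [show j + m + (N - m) = j + N by omega] at e2
    rw [e1, e2] at hN
    exact lt_irrefl _ hN
  rw [tri_steps D N h h1]
  obtain ⟨a, ha⟩ : ∃ a, a = D.w (i + N) := ⟨_, rfl⟩
  obtain ⟨b, hb⟩ : ∃ b, b = D.w (j + N) := ⟨_, rfl⟩
  rw [← ha, ← hb] at hN
  have hc : (a = 0 ∧ b = 1) ∨ (a = 0 ∧ b = 2) ∨ (a = 1 ∧ b = 2) := by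
    revert hN
    clear ha hb
    revert a b
    decide
  rcases hc with ⟨e1, e2⟩ | ⟨e1, e2⟩ | ⟨e1, e2⟩
  · rw [D.F0 _ (ha ▸ e1), D.G1 _ (hb ▸ e2)]
  · rw [D.F0 _ (ha ▸ e1), ← D.G2 _ (hb ▸ e2), M.ab, map_zero]
  · rw [← D.G2 _ (hb ▸ e2), D.F1 _ (ha ▸ e1), map_zero]

/-- (2) -/
theorem tri_diag {i : ℕ} (h : i < n) (q : Fin r → k) : D.G i (D.F i q) = D.G 0 (D.F 0 q) := by
  have := tri_steps D (i := 0) (j := 0) i (fun m _ => rfl)
    (fun m hm => D.wn _ (by omega)) q
  rw [Nat.zero_add] at this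
  exact this.symm

/-- (3) -/
theorem tri_ne {i j : ℕ} (h : (i : ZMod 4) ≠ j) (q : Fin r → k) : D.G j (D.F i q) = 0 := by
  rw [← D.Gπ j, ← D.Fπ i, M.orth _ _ _ (fun e => h (add_left_cancel e).symm), map_zero]

/-- the words -/
def xw (i : ℕ) : Lex (ℕ → Fin 3) := toLex fun m => D.w (i + m)

theorem tri_off {i j : ℕ} (hi : i < n) (hj : j < n) (hij : i ≠ j) (hle : xw D j ≤ xw D i)
    (q : Fin r → k) : D.G i (D.F j q) = 0 := by
  by_cases hc : (j : ZMod 4) = i
  · rcases hle.lt_or_eq with h | h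
    · obtain ⟨N, h1, h2⟩ := h
      exact tri_lt D (i := j) (j := i) (N := N) (fun m hm => h1 m hm) h2 q
    · exfalso
      rcases Nat.lt_or_gt_of_ne hij with h' | h'
      · obtain ⟨m, hm⟩ := D.dist i j h' hj hc.symm
        exact hm (congrFun h m).symm
      · obtain ⟨m, hm⟩ := D.dist j i h' hi hc
        exact hm (congrFun h m)
  · exact tri_ne D hc q

end

theorem t_TRI : S_TRI.{u} := by
  intro k V _ _ _ M n r T D q hq
  classical
  by_contra hcon
  push Not at hcon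
  let A : Finset ℕ := (Finset.range n).filter fun i => q i ≠ 0
  have hA : A.Nonempty := by
    obtain ⟨i, hi, h⟩ := hcon
    exact ⟨i, Finset.mem_filter.2 ⟨Finset.mem_range.2 hi, h⟩⟩
  obtain ⟨i, hi, hmax⟩ := Finset.exists_max_image A (xw D) hA
  obtain ⟨hi1, hi2⟩ := Finset.mem_filter.1 hi
  rw [Finset.mem_range] at hi1
  have h1 := hq i hi1
  rw [map_sum, Finset.sum_eq_single i] at h1
  · rw [tri_diag D hi1] at h1
    apply hi2
    apply D.inj
    change D.G 0 (D.F 0 (q i)) = D.G 0 (D.F 0 0)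
    rw [h1, map_zero, map_zero]
  · intro j hj hji
    rw [Finset.mem_range] at hj
    by_cases h0 : q j = 0
    · rw [h0, map_zero, map_zero]
    · exact tri_off D hi1 hj (Ne.symm hji)
        (hmax j (Finset.mem_filter.2 ⟨Finset.mem_range.2 hj, h0⟩)) _
  · intro h
    exact absurd (Finset.mem_range.2 hi1) h

end Pool.Agent.J4H98.TH
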